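import Pool.Agent.Q227.KK.C3

/-!
# The exact patching number of extensions of prime power degree

Let `L` be a finite Galois extension of the number field `K` whose degree is a power of a prime `q`,
let `M` be the compositum of the subfields of `L` of degree `q` over `K`, and let `[M : K] = q^r`,
`r ≥ 2`.  (`L/K` is not cyclic, and its Galois group has `r` generators and no fewer.)  Suppose that
`n`-dimensional `ℓ`-adic representations are attached to the data `D` over the subfields of `L`
other than `K`.  We show that this implies the existence of a representation over `K` for all such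
data if and only if `n` is less than the smallest number of points of the affine space of dimension
`r - 1` over the field with `q` elements which meet every line.

Subfields `F` of `L` are given by the subgroups `U = Gal(K̄/F)` which contain `N = Gal(K̄/L)`.
-/

set_option autoImplicit false

namespace Pool.Agent.Results.MP_ef641d_nt.ExactPatching

open NumberField IsDedekindDomain Pool.Agent.W401.Cheb

variable {K : Type} [Field K] [NumberField K] {ℓ : ℕ} [Fact ℓ.Prime] {n : ℕ}

/-- the place `v` splits completely in the extension of `K` which corresponds to `Δ`, a normal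
subgroup of finite index of the absolute Galois group -/
def SplitsIn (v : HeightOneSpectrum (𝓞 K)) (Δ : Subgroup (GK K)) : Prop :=
  ∀ σ, IsInert v σ ∨ IsFrob v σ → σ ∈ Δ

/-- the representation of `U` is continuous -/
def IsCont {U : Subgroup (GK K)}
    (ρ : Representation (PadicAlgCl ℓ) U (Fin n → PadicAlgCl ℓ)) : Prop :=
  ∀ x, Continuous fun σ => ρ σ x

/-- `ρ`, a representation of `Δ`, is unramified at `v`, and `M` is the multiset of the eigenvalues
of the geometric Frobenius elements at `v` -/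
def CorrespondsAt {Δ : Subgroup (GK K)}
    (ρ : Representation (PadicAlgCl ℓ) Δ (Fin n → PadicAlgCl ℓ))
    (v : HeightOneSpectrum (𝓞 K)) (M : Multiset (PadicAlgCl ℓ)) : Prop :=
  (∀ σ : Δ, IsInert v (σ : GK K) → ρ σ = 1) ∧
    ∀ σ : Δ, IsFrob v (σ : GK K) → (ρ σ⁻¹).charpoly.roots = M

/-- the same for a representation of the absolute Galois group of `K` -/
def Corresponds (R : Representation (PadicAlgCl ℓ) (GK K) (Fin n → PadicAlgCl ℓ))
    (v : HeightOneSpectrum (𝓞 K)) (M : Multiset (PadicAlgCl ℓ)) : Prop :=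
  (∀ σ, IsInert v σ → R σ = 1) ∧ ∀ σ, IsFrob v σ → (R σ⁻¹).charpoly.roots = M

/-- `σ` acts on the residue field of a maximal ideal `Q` above `v` of the ring of all algebraic
integers as `x ↦ x ^ (N(v) ^ f)` -/
def IsFrobPow (v : HeightOneSpectrum (𝓞 K)) (f : ℕ) (σ : GK K) : Prop :=
  ∃ Q : Ideal (𝓞 (AlgebraicClosure K)), Q.IsMaximal ∧
    Q.comap (algebraMap (𝓞 K) (𝓞 (AlgebraicClosure K))) = v.asIdeal ∧
    ∀ x : 𝓞 (AlgebraicClosure K), σ • x - x ^ (Ideal.absNorm v.asIdeal) ^ f ∈ Q

/-- `ρ` is attached to the base change of the data `D` to `F`: it is unramified at the places of `F`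
above the `v` outside `S`, and the geometric Frobenius eigenvalues at such a place of residue degree
`f` are the `f`-th powers of the elements of `D v` -/
def AttachedOver {U : Subgroup (GK K)}
    (ρ : Representation (PadicAlgCl ℓ) U (Fin n → PadicAlgCl ℓ))
    (S : Set (HeightOneSpectrum (𝓞 K)))
    (D : HeightOneSpectrum (𝓞 K) → Multiset (PadicAlgCl ℓ)) : Prop :=
  ∀ v ∉ S, (∀ σ : U, IsInert v (σ : GK K) → ρ σ = 1) ∧ ∀ (f : ℕ) (σ : U), 0 < f →
    IsFrobPow v f (σ : GK K) → (ρ σ⁻¹).charpoly.roots = (D v).map fun x => x ^ f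

/-- the restriction of a representation of the absolute Galois group -/
noncomputable def restrict (Δ : Subgroup (GK K))
    (ρ : Representation (PadicAlgCl ℓ) (GK K) (Fin n → PadicAlgCl ℓ)) :
    Representation (PadicAlgCl ℓ) Δ (Fin n → PadicAlgCl ℓ) := MonoidHom.comp ρ Δ.subtype

/-- `N` is the absolute Galois group of a Galois extension `L` of `K` of degree a power of `q` -/
structure PrimePowerDegree (N : Subgroup (GK K)) (q : ℕ) : Prop where
  normal : N.Normal
  isOpen : IsOpen (N : Set (GK K))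
  degree : ∃ e : ℕ, N.index = q ^ e

/-- the Galois group of the compositum `M` of the subfields of `L` of degree `q` over `K` -/
noncomputable def compositum (N : Subgroup (GK K)) (q : ℕ) : Subgroup (GK K) :=
  sInf {Δ | N ≤ Δ ∧ Δ.index = q}

/-- the `ρ Δ`, one for each subfield of `L` of degree `q` over `K`, are continuous semisimple
`n`-dimensional representations, unramified and with geometric Frobenius eigenvalues `D v` at the
places above `v` for each `v` outside `S` which splits completely in this subfield -/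
def Family (N : Subgroup (GK K)) (q : ℕ) (S : Set (HeightOneSpectrum (𝓞 K)))
    (D : HeightOneSpectrum (𝓞 K) → Multiset (PadicAlgCl ℓ))
    (ρ : ∀ Δ : Subgroup (GK K), Representation (PadicAlgCl ℓ) Δ (Fin n → PadicAlgCl ℓ)) : Prop :=
  ∀ Δ, N ≤ Δ → Δ.index = q → (ρ Δ).IsSemisimpleRepresentation ∧ IsCont (ρ Δ) ∧
    ∀ v ∉ S, SplitsIn v Δ → CorrespondsAt (ρ Δ) v (D v)

/-- every such family of `n`-dimensional representations, for every finite `S` and all `D`, consists
of the restrictions of one continuous semisimple representation of the absolute Galois group of `K`,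
which corresponds to `D v` at each `v` outside `S` which is unramified in `M` or splits completely
in one of the subfields of degree `q` -/
def Patches (ℓ : ℕ) [Fact ℓ.Prime] (N : Subgroup (GK K)) (q n : ℕ) : Prop :=
  ∀ S : Set (HeightOneSpectrum (𝓞 K)), S.Finite →
    ∀ (D : HeightOneSpectrum (𝓞 K) → Multiset (PadicAlgCl ℓ))
      (ρ : ∀ Δ : Subgroup (GK K), Representation (PadicAlgCl ℓ) Δ (Fin n → PadicAlgCl ℓ)),
    Family N q S D ρ →
    ∃ R : Representation (PadicAlgCl ℓ) (GK K) (Fin n → PadicAlgCl ℓ),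
      R.IsSemisimpleRepresentation ∧ (∀ x, Continuous fun σ => R σ x) ∧
      (∀ Δ, N ≤ Δ → Δ.index = q → Nonempty (Representation.Equiv (restrict Δ R) (ρ Δ))) ∧
      ∀ v ∉ S, ((∀ σ, IsInert v σ → σ ∈ compositum N q) ∨
        ∃ Δ, N ≤ Δ ∧ Δ.index = q ∧ SplitsIn v Δ) → Corresponds R v (D v)

/-- for each field `F` with `K < F ≤ L`, some continuous semisimple `n`-dimensional representation
is attached to the base change of `D` to `F` -/
def ExistsOverSubfields (N : Subgroup (GK K)) (n : ℕ) (S : Set (HeightOneSpectrum (𝓞 K)))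
    (D : HeightOneSpectrum (𝓞 K) → Multiset (PadicAlgCl ℓ)) : Prop :=
  ∀ U : Subgroup (GK K), N ≤ U → U ≠ ⊤ →
    ∃ ρ : Representation (PadicAlgCl ℓ) U (Fin n → PadicAlgCl ℓ),
      ρ.IsSemisimpleRepresentation ∧ IsCont ρ ∧ AttachedOver ρ S D

/-- existence over these fields implies, for all finite `S` and all `D`, the existence of a
continuous semisimple representation over `K` which corresponds to `D v` at all `v` outside `S` -/
def Descends (ℓ : ℕ) [Fact ℓ.Prime] (N : Subgroup (GK K)) (n : ℕ) : Prop :=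
  ∀ S : Set (HeightOneSpectrum (𝓞 K)), S.Finite →
    ∀ D : HeightOneSpectrum (𝓞 K) → Multiset (PadicAlgCl ℓ), ExistsOverSubfields N n S D →
    ∃ R : Representation (PadicAlgCl ℓ) (GK K) (Fin n → PadicAlgCl ℓ),
      R.IsSemisimpleRepresentation ∧ (∀ x, Continuous fun σ => R σ x) ∧
      ∀ v ∉ S, Corresponds R v (D v)

/-- for some finite `S` and some `D` representations exist over these fields, but no continuous
semisimple representation of the absolute Galois group of `K`, of any dimension, has the geometric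
Frobenius eigenvalues `D v` at all `v` outside any given finite set -/
def Obstructed (ℓ : ℕ) [Fact ℓ.Prime] (N : Subgroup (GK K)) (n : ℕ) : Prop :=
  ∃ (S : Set (HeightOneSpectrum (𝓞 K))) (D : HeightOneSpectrum (𝓞 K) → Multiset (PadicAlgCl ℓ)),
    S.Finite ∧ ExistsOverSubfields N n S D ∧
    ∀ S' : Set (HeightOneSpectrum (𝓞 K)), S'.Finite → ∀ m : ℕ,
      ∀ R : Representation (PadicAlgCl ℓ) (GK K) (Fin m → PadicAlgCl ℓ),
        R.IsSemisimpleRepresentation → (∀ x, Continuous fun σ => R σ x) →
        ¬ ∀ v ∉ S', ∀ σ, IsFrob v σ → (R σ⁻¹).charpoly.roots = D v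

/-- the set of points meets every line of the affine space of dimension `s` over `ℤ/q` -/
def MeetsLines (q s : ℕ) (B : Finset (Fin s → ZMod q)) : Prop :=
  ∀ x d : Fin s → ZMod q, d ≠ 0 → ∃ t : ZMod q, x + t • d ∈ B

/-- the smallest number of points which meet every line -/
noncomputable def blocking (q s : ℕ) : ℕ :=
  sInf {m | ∃ B : Finset (Fin s → ZMod q), MeetsLines q s B ∧ B.card = m}

/-- the set of points contains no line -/
def LineFree (q s : ℕ) (C : Finset (Fin s → ZMod q)) : Prop :=
  ∀ x d : Fin s → ZMod q, d ≠ 0 → ∃ t : ZMod q, x + t • d ∉ C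

/-- **The exact patching number.** Let `q` be a prime, `L/K` a finite Galois extension of `q`-power
degree, `M` the compositum of the subfields of degree `q` over `K`, `[M : K] = q ^ r` and `r ≥ 2`.
Let `b` be the smallest number of points of the affine space of dimension `r - 1` over `ℤ/q` which
meet every line.  **(1)** If `n < b`, then `n`-dimensional representations over the subfields of
degree `q`, attached to common data `D v` at the places which split completely, can always be
patched to one representation over `K`; and existence over all fields `F` with `K < F ≤ L` implies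
existence over `K`.  **(2)** If `n ≥ b`, there are data for which `n`-dimensional representations
exist over all `F` with `K < F ≤ L`, but no representation over `K` exists.  **(3)** `n < b` means
that each set of points which contains no line has less than `q ^ (r - 1) - n` points (`q = 3`: cap
sets); `b ≥ (q ^ (r - 1) - 1) / (q - 1)`, `b = 2 ^ (r - 1) - 1` for `q = 2`, `b = 1` for `r = 2`,
and `b = 2 * q - 1` for `r = 3`. -/
theorem result (K : Type) [Field K] [NumberField K] (ℓ : ℕ) [Fact ℓ.Prime] (q r : ℕ)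
    (hq : q.Prime) (hr : 2 ≤ r) (N : Subgroup (GK K)) (hN : PrimePowerDegree N q)
    (hM : (compositum N q).index = q ^ r) :
    (∀ n, n < blocking q (r - 1) → Patches ℓ N q n ∧ Descends ℓ N n) ∧
    (∀ n, blocking q (r - 1) ≤ n → Obstructed ℓ N n) ∧
    (∀ n, n < blocking q (r - 1) ↔ ∀ C : Finset (Fin (r - 1) → ZMod q),
      LineFree q (r - 1) C → C.card + n < q ^ (r - 1)) ∧
    (q ^ (r - 1) - 1) / (q - 1) ≤ blocking q (r - 1) ∧
    (q = 2 → blocking q (r - 1) = 2 ^ (r - 1) - 1) ∧
    (r = 2 → blocking q (r - 1) = 1) ∧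
    (r = 3 → blocking q (r - 1) = 2 * q - 1) := by
  haveI : Fact q.Prime := ⟨hq⟩
  obtain ⟨hNn, hNo, e, he⟩ := hN
  have hs : 1 ≤ r - 1 := by omega
  have hidx : (Pool.Agent.Q227.KK.core N q).index = q ^ (r - 1 + 1) := by
    have h1 : (Pool.Agent.Q227.KK.core N q).index = q ^ r := hM
    rw [h1]
    congr 1
    omega
  obtain ⟨hcn, hce, hcc⟩ := Pool.Agent.Q227.KK.core_props hq N he
  have hco : IsOpen (Pool.Agent.Q227.KK.core N q : Set (GK K)) :=
    Subgroup.isOpen_mono (Pool.Agent.Q227.KK.le_core N q) hNo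
  have hlt : q < (Pool.Agent.Q227.KK.core N q).index := by
    rw [hidx]
    have h3 : q ^ 1 < q ^ (r - 1 + 1) := Nat.pow_lt_pow_right hq.one_lt (by omega)
    rwa [pow_one] at h3
  have hle : ∀ Δ : Subgroup (GK K), Pool.Agent.Q227.KK.core N q ≤ Δ → N ≤ Δ := fun Δ h =>
    (Pool.Agent.Q227.KK.le_core N q).trans h
  have hpatch : ∀ n, n < blocking q (r - 1) → Patches ℓ N q n := by
    intro n hn S hS D ρ hρ
    obtain ⟨R, h1, h2, h3, h4⟩ := Pool.Agent.Q227.KK.patch_nt' hq _ hcn hco hcc hce hs hidx hn S hS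
      D ρ (fun Δ h h' => (hρ Δ (hle Δ h) h').1) (fun Δ h h' => (hρ Δ (hle Δ h) h').2.1)
      (fun Δ h h' v hv hs => (hρ Δ (hle Δ h) h').2.2 v hv hs)
    refine ⟨R, h1, h2, fun Δ h h' => h3 Δ (Pool.Agent.Q227.KK.core_le h h') h', ?_⟩
    rintro v hv (hv' | ⟨Δ, h5, h6, h7⟩)
    · exact h4 v hv (Pool.Agent.Q15.GR.exists_split hq _ hcn hcc hce hlt v hv')
    · exact h4 v hv ⟨Δ, Pool.Agent.Q227.KK.core_le h5 h6, h6, h7⟩
  refine ⟨fun n hn => ⟨hpatch n hn, ?_⟩, fun n hn => ?_, fun n => ?_, ?_, ?_, ?_, ?_⟩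
  · intro S hS D hD
    classical
    have hex : ∀ Δ : Subgroup (GK K), ∃ ρ : Representation (PadicAlgCl ℓ) Δ (Fin n → PadicAlgCl ℓ),
        N ≤ Δ → Δ.index = q → ρ.IsSemisimpleRepresentation ∧ IsCont ρ ∧ AttachedOver ρ S D := by
      intro Δ
      by_cases h : N ≤ Δ ∧ Δ.index = q
      · obtain ⟨ρ, hρ⟩ := hD Δ h.1 (by
          rintro rfl
          rw [Subgroup.index_top] at h
          exact hq.one_lt.ne h.2)
        exact ⟨ρ, fun _ _ => hρ⟩
      · exact ⟨1, fun h1 h2 => absurd ⟨h1, h2⟩ h⟩
    choose ρ hρ using hex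
    have hone : ∀ (Δ : Subgroup (GK K)) (h : N ≤ Δ) (h' : Δ.index = q), ∀ v ∉ S,
        CorrespondsAt (ρ Δ) v (D v) := by
      intro Δ h h' v hv
      obtain ⟨h1, h2⟩ := (hρ Δ h h').2.2 v hv
      refine ⟨h1, fun σ hσ => ?_⟩
      have h3 := h2 1 σ one_pos (Pool.Agent.Q227.CD.isFrobPow_one.2 hσ)
      rw [h3]
      simp
    obtain ⟨R, h1, h2, h3, -⟩ := hpatch n hn S hS D ρ (fun Δ h h' =>
      ⟨(hρ Δ h h').1, (hρ Δ h h').2.1, fun v hv _ => hone Δ h h' v hv⟩)
    refine ⟨R, h1, h2, fun v hv => ⟨fun σ hσ => ?_, fun σ hσ => ?_⟩⟩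
    · obtain ⟨Δ, h4, h5, h6⟩ := Pool.Agent.Q15.GR.exists_index hq _ hcn hcc hce hlt σ
      obtain ⟨i⟩ := h3 Δ (hle Δ h4) h5
      exact (Pool.Agent.Q227.KK.transfer i ⟨σ, h6⟩).1 ((hone Δ (hle Δ h4) h5 v hv).1 ⟨σ, h6⟩ hσ)
    · obtain ⟨Δ, h4, h5, h6⟩ := Pool.Agent.Q15.GR.exists_index hq _ hcn hcc hce hlt σ
      obtain ⟨i⟩ := h3 Δ (hle Δ h4) h5
      exact (Pool.Agent.Q227.KK.transfer i ⟨σ, h6⟩).2.trans
        ((hone Δ (hle Δ h4) h5 v hv).2 ⟨σ, h6⟩ hσ)
  · obtain ⟨S, D, h1, h2, h3⟩ := Pool.Agent.Q227.KK.counter2 (k := PadicAlgCl ℓ) hq N hNn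
      hNo he hs hidx hn
    exact ⟨S, D, h1, h2, h3⟩
  · exact Pool.Agent.Q227.KK.lt_blk_iff
  · exact Pool.Agent.Q227.KK.le_blk_lines
  · rintro rfl
    have h1 := Pool.Agent.Q227.KK.blk_two (r - 1)
    have h2 : Pool.Agent.Q227.KK.blk 2 (r - 1) = blocking 2 (r - 1) := rfl
    omega
  · rintro rfl
    exact Pool.Agent.Q227.KK.blk_one
  · rintro rfl
    exact Pool.Agent.Q227.KK.blk_plane

end Pool.Agent.Results.MP_ef641d_nt.ExactPatching
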