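import Pool.Agent.Q15.GRIso5

/-!
# Finitely many twists isolate a Galois representation

The last step in the construction of the Galois representation of a cuspidal `π` (Harris, Lan,
Taylor, Thorne; Scholze) starts from representations `R_M` whose Frobenius eigenvalues are those of
`π` together with those of `π'` times the `M`-th power of the Frobenius eigenvalue of a character of
infinite order, for all large `M`.  We show that `n + n' + 2` exponents are enough.
-/

set_option autoImplicit false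

namespace Pool.Agent.Results.MP_ef641d_nt.FiniteIsolation

open NumberField IsDedekindDomain Pool.Agent.W401.Cheb

/-- the representation is continuous -/
def IsCont {K : Type} [Field K] {ℓ : ℕ} [Fact ℓ.Prime] {n : ℕ}
    (ρ : Representation (PadicAlgCl ℓ) (GK K) (Fin n → PadicAlgCl ℓ)) : Prop :=
  ∀ x, Continuous fun σ => ρ σ x

/-- `ρ` is unramified at `v`, and `M` is the multiset of the eigenvalues of the geometric Frobenius
elements at `v` -/
def CorrespondsAt {K : Type} [Field K] [NumberField K] {ℓ : ℕ} [Fact ℓ.Prime] {n : ℕ}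
    (ρ : Representation (PadicAlgCl ℓ) (GK K) (Fin n → PadicAlgCl ℓ))
    (v : HeightOneSpectrum (𝓞 K)) (M : Multiset (PadicAlgCl ℓ)) : Prop :=
  (∀ σ, IsInert v σ → ρ σ = 1) ∧ ∀ σ, IsFrob v σ → (ρ σ⁻¹).charpoly.roots = M

/-- `ρ' ⊗ χ` -/
noncomputable def tensor {K : Type} [Field K] {ℓ : ℕ} [Fact ℓ.Prime] {n : ℕ} (χ : GK K →* (PadicAlgCl ℓ)ˣ)
    (ρ : Representation (PadicAlgCl ℓ) (GK K) (Fin n → PadicAlgCl ℓ)) :
    Representation (PadicAlgCl ℓ) (GK K) (Fin n → PadicAlgCl ℓ) where
  toFun σ := (χ σ : PadicAlgCl ℓ) • ρ σ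
  map_one' := by rw [map_one, map_one, Units.val_one, one_smul]
  map_mul' g h := by rw [map_mul, map_mul, Units.val_mul, smul_mul_smul_comm]

/-- **Finite isolation.** Let `K` be a number field, `D v`, `D' v` multisets of `n`, resp. `n'`,
`ℓ`-adic numbers for the places `v` outside a finite set `S`, and `t` a continuous character of the
absolute Galois group, unramified outside `S`, such that its values `τ v` at the geometric Frobenius
elements are not roots of unity.  Suppose that for at least `n + n' + 2` different integers `a` there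
is a continuous semisimple representation of dimension `n + n'`, unramified outside `S`, with
geometric Frobenius eigenvalues `D v` and `D' v` times `τ v ^ a`.  Then there are continuous
semisimple representations `ρ`, `ρ'` of dimension `n`, `n'`, unramified outside `S`, with geometric
Frobenius eigenvalues `D v` and `D' v`, and the given representations are `ρ ⊕ ρ' ⊗ t ^ a`. -/
theorem result (K : Type) [Field K] [NumberField K] (ℓ : ℕ) [Fact ℓ.Prime] (n n' : ℕ)
    (S : Set (HeightOneSpectrum (𝓞 K))) (hS : S.Finite)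
    (D D' : HeightOneSpectrum (𝓞 K) → Multiset (PadicAlgCl ℓ))
    (hD : ∀ v ∉ S, Multiset.card (D v) = n) (hD' : ∀ v ∉ S, Multiset.card (D' v) = n')
    (t : GK K →* (PadicAlgCl ℓ)ˣ) (htc : Continuous fun σ => (t σ : PadicAlgCl ℓ))
    (τ : HeightOneSpectrum (𝓞 K) → (PadicAlgCl ℓ)ˣ)
    (hτ : ∀ v ∉ S, ∀ m : ℤ, m ≠ 0 → τ v ^ m ≠ 1)
    (ht : ∀ v ∉ S, (∀ σ, IsInert v σ → t σ = 1) ∧ ∀ σ, IsFrob v σ → t σ⁻¹ = τ v)
    (A : Finset ℤ) (hA : n + n' + 2 ≤ A.card)
    (R : A → Representation (PadicAlgCl ℓ) (GK K) (Fin (n + n') → PadicAlgCl ℓ))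
    (hR : ∀ a : A, (R a).IsSemisimpleRepresentation ∧ IsCont (R a) ∧ ∀ v ∉ S, CorrespondsAt (R a) v
      (D v + (D' v).map fun x => x * ((τ v ^ (a : ℤ) : (PadicAlgCl ℓ)ˣ) : PadicAlgCl ℓ))) :
    ∃ (ρ : Representation (PadicAlgCl ℓ) (GK K) (Fin n → PadicAlgCl ℓ))
      (ρ' : Representation (PadicAlgCl ℓ) (GK K) (Fin n' → PadicAlgCl ℓ)),
      (ρ.IsSemisimpleRepresentation ∧ IsCont ρ ∧ ∀ v ∉ S, CorrespondsAt ρ v (D v)) ∧
      (ρ'.IsSemisimpleRepresentation ∧ IsCont ρ' ∧ ∀ v ∉ S, CorrespondsAt ρ' v (D' v)) ∧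
      ∀ a : A, Nonempty (Representation.Equiv (ρ.prod (tensor (t ^ (a : ℤ)) ρ')) (R a)) := by
  obtain ⟨ρ, ρ', h1, h2, h3, h4, h5, h6, h7⟩ := Pool.Agent.Q15.GR.iso_nt S hS D D' hD hD' t htc τ
    hτ ht (fun a : A => (a : ℤ)) Subtype.val_injective (by rwa [Fintype.card_coe]) R
    (fun a => (hR a).1) (fun a => (hR a).2.1) (fun a v hv => (hR a).2.2 v hv)
  exact ⟨ρ, ρ', ⟨h1, h3, h5⟩, ⟨h2, h4, h6⟩, h7⟩

end Pool.Agent.Results.MP_ef641d_nt.FiniteIsolation
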