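import Pool.Agent.Q227.CD.NT7
import Pool.Agent.Q227.CD.S3

/-!
# Galois representations exist over `K` if they exist over extensions of coprime degrees

`D v` are the Satake parameters (in the normalisation of the conjecture) of `π` at the places `v` of
`K` outside a finite set `S`.  Extensions `F` of `K` are given by the open subgroups
`U = Gal(K̄/F)`, `[F : K]` is the index of `U`; they are contained in the field `L` of the open normal
subgroup `N`.  The parameters of the base change of `π` to `F` at a place of `F` of residue degree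
`f` over `v` are the `f`-th powers of the elements of `D v`.  The coefficients `k` are an
algebraically closed topological field of characteristic zero, such as `ℚ̄_ℓ`.
-/

set_option autoImplicit false

namespace Pool.Agent.Results.MP_ef641d_nt.MultiplicityFree

open NumberField IsDedekindDomain Pool.Agent.W401.Cheb

variable {K : Type} [Field K] [NumberField K] {k : Type} [Field k] [IsAlgClosed k] {n : ℕ}

/-- the representation is continuous -/
def IsCont [TopologicalSpace k] {U : Subgroup (GK K)} (ρ : Representation k U (Fin n → k)) :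
    Prop := ∀ x, Continuous fun σ => ρ σ x

/-- restriction to a smaller subgroup -/
noncomputable def res {U N : Subgroup (GK K)} (h : N ≤ U) (ρ : Representation k U (Fin n → k)) :
    Representation k N (Fin n → k) := ρ.comp (Subgroup.inclusion h)

/-- restriction from the whole group -/
noncomputable def Res (U : Subgroup (GK K)) (R : Representation k (GK K) (Fin n → k)) :
    Representation k U (Fin n → k) := R.comp U.subtype

/-- semisimple and multiplicity free: the endomorphisms commute with each other -/
def MultFree {U : Subgroup (GK K)} (ρ : Representation k U (Fin n → k)) : Prop :=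
  ρ.IsSemisimpleRepresentation ∧ ∀ A B : (Fin n → k) →ₗ[k] (Fin n → k),
    (∀ g, A ∘ₗ ρ g = ρ g ∘ₗ A) → (∀ g, B ∘ₗ ρ g = ρ g ∘ₗ B) → A ∘ₗ B = B ∘ₗ A

/-- `σ` acts on the residue field of a maximal ideal `Q` above `v` of the ring of all algebraic
integers as `x ↦ x ^ (N(v) ^ f)` -/
def IsFrobPow (v : HeightOneSpectrum (𝓞 K)) (f : ℕ) (σ : GK K) : Prop :=
  ∃ Q : Ideal (𝓞 (AlgebraicClosure K)), Q.IsMaximal ∧
    Q.comap (algebraMap (𝓞 K) (𝓞 (AlgebraicClosure K))) = v.asIdeal ∧
    ∀ x : 𝓞 (AlgebraicClosure K), σ • x - x ^ (Ideal.absNorm v.asIdeal) ^ f ∈ Q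

/-- `ρ` is attached to the base change of the data `D` to `F`: it is unramified at the places of `F`
above the `v` outside `S`, and the geometric Frobenius eigenvalues at such a place of residue degree
`f` are the `f`-th powers of the elements of `D v` (for `F = K`, `f = 1`: those of `D v`) -/
def AttachedOver {U : Subgroup (GK K)} (ρ : Representation k U (Fin n → k))
    (S : Set (HeightOneSpectrum (𝓞 K))) (D : HeightOneSpectrum (𝓞 K) → Multiset k) : Prop :=
  ∀ v ∉ S, (∀ σ : U, IsInert v (σ : GK K) → ρ σ = 1) ∧ ∀ (f : ℕ) (σ : U), 0 < f →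
    IsFrobPow v f (σ : GK K) → (ρ σ⁻¹).charpoly.roots = (D v).map fun x => x ^ f

/-- the eigenvalues, with multiplicities, of the geometric Frobenius element `σ⁻¹` -/
noncomputable def eigs (R : Representation k (GK K) (Fin n → k)) (σ : GK K) : Multiset k :=
  (R σ⁻¹).charpoly.roots

/-- the representation of `Gal(K̄/K)` is unramified at `v` -/
def UnramifiedAt (R : Representation k (GK K) (Fin n → k)) (v : HeightOneSpectrum (𝓞 K)) : Prop :=
  ∀ σ, IsInert v σ → R σ = 1

/-- `R` corresponds to `M` at `v`: it is unramified with these geometric Frobenius eigenvalues -/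
def CorrespondsAt (R : Representation k (GK K) (Fin n → k)) (v : HeightOneSpectrum (𝓞 K))
    (M : Multiset k) : Prop := UnramifiedAt R v ∧ ∀ σ, IsFrob v σ → eigs R σ = M

/-- if two elements of `M` have the same `m`-th power, their ratio has prime power order -/
def PrimePowerRatios (M : Multiset k) (m : ℕ) : Prop :=
  ∀ x ∈ M, ∀ y ∈ M, x ^ m = y ^ m → ∃ q e : ℕ, q.Prime ∧ x ^ q ^ e = y ^ q ^ e

/-- the restriction of `R` to `U = Gal(K̄/F)` is isomorphic to `ρ` -/
def RestrictsTo (R : Representation k (GK K) (Fin n → k)) {U : Subgroup (GK K)}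
    (ρ : Representation k U (Fin n → k)) : Prop :=
  Nonempty (Representation.Equiv (Res U R) ρ)

/-- whenever (for every `S`, `D`) a representation whose restriction to `N` has the property `P` is
attached to `D` over every field `F` with `K < F ≤ L`, one corresponds to `D` over `K` -/
def Descends [TopologicalSpace k] (N : Subgroup (GK K))
    (P : Representation k N (Fin n → k) → Prop) : Prop :=
  ∀ S : Set (HeightOneSpectrum (𝓞 K)), S.Finite →
    ∀ D : HeightOneSpectrum (𝓞 K) → Multiset k,
    (∀ (U : Subgroup (GK K)) (hU : N ≤ U), U ≠ ⊤ → ∃ ρ : Representation k U (Fin n → k),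
      IsCont ρ ∧ P (res hU ρ) ∧ AttachedOver ρ S D) →
    ∃ R : Representation k (GK K) (Fin n → k), (∀ x, Continuous fun σ => R σ x) ∧ P (Res N R) ∧
      ∀ v ∉ S, CorrespondsAt R v (D v)

/-- `R` is unramified outside `S`, and corresponds to `D v` at the `v` outside `S` which have a place
of degree one in some `F_i`, and at those where the ratio of any two elements of `D v`, if it is a
root of unity of order dividing `[L : K]`, has prime power order -/
def LocalConditions (N : Subgroup (GK K)) {ι : Type} (U : ι → Subgroup (GK K))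
    (S : Set (HeightOneSpectrum (𝓞 K))) (D : HeightOneSpectrum (𝓞 K) → Multiset k)
    (R : Representation k (GK K) (Fin n → k)) : Prop :=
  ∀ v ∉ S, UnramifiedAt R v ∧
    ((∃ i, ∃ σ ∈ U i, IsFrob v σ) ∨ PrimePowerRatios (D v) N.index → CorrespondsAt R v (D v))

/-- if representations `ρ i`, multiplicity free on `N`, are attached to `D` over fields `F_i`
contained in `L` and the greatest common divisor of the degrees `[F_i : K]` is `1`, there is a unique
common extension `R` of the `ρ i` to `Gal(K̄/K)`, and it satisfies the local conditions -/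
def CoprimeDescent (k : Type) [Field k] [IsAlgClosed k] [TopologicalSpace k]
    (N : Subgroup (GK K)) : Prop :=
  ∀ (n : ℕ) (ι : Type) [Nonempty ι] (U : ι → Subgroup (GK K)) (hU : ∀ i, N ≤ U i),
    (∀ d, (∀ i, d ∣ (U i).index) → d = 1) →
    ∀ (S : Set (HeightOneSpectrum (𝓞 K))) (_ : S.Finite)
      (D : HeightOneSpectrum (𝓞 K) → Multiset k) (ρ : ∀ i, Representation k (U i) (Fin n → k)),
    (∀ i, IsCont (ρ i) ∧ MultFree (res (hU i) (ρ i)) ∧ AttachedOver (ρ i) S D) →
    ∃ R : Representation k (GK K) (Fin n → k), (∀ x, Continuous fun σ => R σ x) ∧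
      MultFree (Res N R) ∧ (∀ i, RestrictsTo R (ρ i)) ∧
      (∀ R' : Representation k (GK K) (Fin n → k), (∀ i, RestrictsTo R' (ρ i)) →
        Nonempty (Representation.Equiv R' R)) ∧ LocalConditions N U S D R

/-- some data are attached to two-dimensional semisimple representations over all `F` with
`K < F ≤ L`, but to none over `K` -/
def SemisimpleCounterexample (k : Type) [Field k] [IsAlgClosed k] [TopologicalSpace k]
    (N : Subgroup (GK K)) : Prop :=
  ∃ (S : Set (HeightOneSpectrum (𝓞 K))) (D : HeightOneSpectrum (𝓞 K) → Multiset k), S.Finite ∧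
    (∀ U : Subgroup (GK K), N ≤ U → U ≠ ⊤ → ∃ ρ : Representation k U (Fin 2 → k), IsCont ρ ∧
      ρ.IsSemisimpleRepresentation ∧ AttachedOver ρ S D) ∧
    ¬ ∃ R : Representation k (GK K) (Fin 2 → k),
      (∀ x, Continuous fun σ => R σ x) ∧ ∀ v ∉ S, CorrespondsAt R v (D v)

/-- **(1)** Let `F_i` be (not necessarily Galois) extensions of `K` contained in a finite Galois
extension `L`, such that the greatest common divisor of their degrees is `1`.  If representations
`ρ_i`, semisimple and multiplicity free over `L`, are attached to `D` over all `F_i`, there is one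
representation `R` over `K` whose restriction to every `F_i` is `ρ_i`; it is unique and unramified
outside `S`, and it corresponds to `D v` at every `v` outside `S` which has a place of degree one in
some `F_i` or at which the ratio of any two elements of `D v`, if it is a root of unity of order
dividing `[L : K]`, has prime power order.
**(2)** If `Gal(L/K)` is neither cyclic nor of prime power order, existence over all `F` with
`K < F ≤ L` implies existence over `K`, for all data multiplicity free over `L`.
**(3)** If `Gal(L/K)` is not cyclic, existence over all `F` with `K < F ≤ L` implies existence over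
`K` (for all data irreducible over `L`) if and only if `Gal(L/K)` is not a `p`-group generated by
two elements.  **(4)** Multiplicity freeness cannot be omitted: if `Gal(L/K)` is the symmetric group
of degree three, there are `S`, `D` attached to two-dimensional semisimple representations over all
these `F`, but to none over `K`. -/
theorem result (K : Type) [Field K] [NumberField K] (k : Type) [Field k] [IsAlgClosed k]
    [CharZero k] [TopologicalSpace k] [IsTopologicalRing k] [T2Space k]
    (N : Subgroup (GK K)) [N.Normal] (hN : IsOpen (N : Set (GK K))) :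
    CoprimeDescent k N ∧
    (¬ IsCyclic (GK K ⧸ N) → (¬ ∃ p : ℕ, p.Prime ∧ IsPGroup p (GK K ⧸ N)) →
      ∀ n, Descends N (MultFree (k := k) (n := n) (U := N))) ∧
    (¬ IsCyclic (GK K ⧸ N) →
      ((∀ n, Descends N fun τ : Representation k N (Fin n → k) => τ.IsIrreducible) ↔
        ¬ ∃ p : ℕ, p.Prime ∧ IsPGroup p (GK K ⧸ N) ∧
          ∃ a b : GK K ⧸ N, Subgroup.closure {a, b} = ⊤)) ∧
    (Nonempty (GK K ⧸ N ≃* Equiv.Perm (Fin 3)) → SemisimpleCounterexample k N) := by
  refine ⟨?_, fun hnc hG n => ?_, fun hnc => ⟨fun h => ?_, fun h n => ?_⟩, ?_⟩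
  · intro n ι _ U hU hgcd S hS D ρ hρ
    have hind : ∀ q : ℕ, q.Prime → ∃ i, ¬ q ∣ (U i).index := by
      intro q hq
      by_contra hne
      have h1 : ∀ i, q ∣ (U i).index := by
        intro i
        by_contra h2
        exact hne ⟨i, h2⟩
      exact hq.one_lt.ne' (hgcd q h1)
    have hUo : ∀ i, IsOpen (U i : Set (GK K)) := fun i => Q227.CD.open_of_ge hN (hU i)
    haveI : ∀ i, (U i).FiniteIndex := fun i => Q227.CD.finiteIndex_of_open (hUo i)
    haveI : N.FiniteIndex := Q227.CD.finiteIndex_of_open hN
    obtain ⟨R, h1, h2, h3, h4⟩ := Q227.CD.main_mf0 (k := k) (N := N) (ρ := ρ) hS hN hU hind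
      (fun i => (hρ i).1) (fun i => (hρ i).2.1.1) (fun i => (hρ i).2.1.2) (fun i => (hρ i).2.2)
    refine ⟨R, h1, ⟨h2, h3⟩, h4, fun R' hR' => ?_, fun v hv => ?_⟩
    · exact Q227.CD.main_mf_unique (N := N) (ρ := ρ) 1 hU (fun q hq _ => hind q hq) h2 h3 h4 hR'
    · have hin : ∀ τ, IsInert v τ → R τ = 1 := fun τ hτ =>
        Q227.CD.inertia_one h4 (fun i => (hρ i).2.2) hind hv hτ
      refine ⟨hin, ?_⟩
      rintro (⟨i, σ₀, hσ₀, hfr⟩ | hrat)
      · exact ⟨hin, fun σ hσ => Q227.CD.frob_of_degree_one h4 (fun i => (hρ i).2.2) hv hin hfr hσ₀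
          hσ⟩
      · exact ⟨hin, fun σ hσ => Q227.CD.frob_of_ratios_D h4 1 hU (fun i => (hρ i).2.2)
          (fun q hq _ => hind q hq) hv hin hσ hrat⟩
  · intro S hS D hD
    exact Q227.CD.exact_mf N hN hnc hG S hS D hD
  · rintro ⟨p, hp, hpG, a, b, hab⟩
    refine Q227.CD.exact_neg (k := k) N hN hnc hp hpG hab (fun S hS D hD => ?_)
    exact h 1 S hS D hD
  · intro S hS D hD
    exact Q227.CD.exact_pos (k := k) (n := n) N hN hnc h S hS D hD
  · rintro ⟨e⟩
    obtain ⟨S, D, h1, h2, h3⟩ := Q227.CD.s3_example (k := k) N hN e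
    exact ⟨S, D, h1, h2, fun ⟨R, hR1, hR2⟩ => h3 ⟨R, hR1, fun v hv => (hR2 v hv).2⟩⟩

end Pool.Agent.Results.MP_ef641d_nt.MultiplicityFree
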