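import Pool.Agent.Q247.SM.Uni
import Pool.Agent.Q247.SM.Art

/-!
# The representation `ρ_π` exists as soon as most of the traces are traces of Frobenius elements

Let `π` be a cuspidal automorphic representation of `GL_n` over `ℚ`, normalized to be unitary (for
`π` algebraic in Clozel's sense of weight `0`, this is the twist by `|det|^((1-n)/2)` whose Satake
parameters `a_{π_p}` occur in the conjecture).  Let `σ : Gal(ℚbar/ℚ) → GL_n(ℂ)` be a representation
of finite image.  Suppose that the traces `a_p(π)` and `tr σ(Frob_p)` agree for all prime numbers but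
a sparse set: the sum of `|a_p(π) - tr σ(Frob_p)|` over the primes `p ≤ x` is at most
`θ √x / log x + C`, for a constant `θ < 2`.  (So `κ √x / log x` exceptional primes are allowed, with
any `κ < 1 / n` if the parameters of `π` have absolute value one.)  If `n ≥ 4` we assume that the
parameters of `π` are bounded; for `n ≤ 3` nothing of this kind is assumed: all hypotheses on `π` are
known for all cuspidal automorphic representations, for instance for the Maass forms of eigenvalue
`1/4` on `GL_2`, the first open case of the conjecture.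

Then the Satake parameters of `π` are the Frobenius eigenvalues at *every* unramified prime, all
local factors, the conductors, the gamma factors and the root numbers of `π` and `σ` agree, `π`
satisfies the Ramanujan conjecture, and for every prime `ℓ` and every isomorphism `ι` of `ℚbar_ℓ` with
`ℂ` there is a continuous semisimple representation `ρ_π : Gal(ℚbar/ℚ) → GL_n(ℚbar_ℓ)` that
corresponds to `π_p` via Satake at every prime `p` at which `π_p` is unramified, also at `p = ℓ`.

Only the traces are compared, that is one coefficient of the Satake polynomial instead of `n`, and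
`σ` is not assumed to be automorphic: the Artin `L`-function is only known to be meromorphic.
The proof compares the two functional equations, see the file `Pool.Agent.Q247.SM.Core`: the
quotient of the completed `L`-functions has all its zeros and poles on the critical line, each of
them needs a mass of at least `log (1 / δ)` at the distance `δ`, and the terms of the squares of primes
are almost orthogonal at different points of the line.
-/

set_option autoImplicit false

namespace Pool.Agent.Results.MP_ef641d_nt.TracesSuffice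

open NumberField Filter Topology

open scoped ComplexConjugate

open Pool.Agent.Q247.GalRep (ArtinFactor AttachedAt Semisimple)

/-- The data of an `L`-function over `ℚ` with `m` factors `Γ_ℝ`: the multisets of the local
parameters at the prime numbers, the conductor, the shifts in the gamma factors, the root number, and
the `L`-function. -/
structure LData (m : ℕ) where
  par : Nat.Primes → Multiset ℂ
  cond : ℝ
  shift : Fin m → ℂ
  root : ℂ
  L : ℂ → ℂ

variable {m : ℕ}

/-- The completed `L`-function `N^(s/2) ∏ Γ_ℝ(s + κ_j) L(s)`. -/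
noncomputable def completed (D : LData m) (s : ℂ) : ℂ :=
  (D.cond : ℂ) ^ (s / 2) * (∏ j, Complex.Gammaℝ (s + D.shift j)) * D.L s

/-- The analytic properties: the Euler product in `Re s > 1`, the meromorphic continuation and the
functional equation.  (Godement-Jacquet for cuspidal automorphic representations; Artin and Brauer
for Artin representations.) -/
structure Analytic (D : LData m) : Prop where
  cond_pos : 0 < D.cond
  shift_re : ∀ j, -(1 / 2) < (D.shift j).re
  root_ne : D.root ≠ 0
  euler : ∀ s : ℂ, 1 < s.re → HasProd (fun p : Nat.Primes =>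
    ((D.par p).map fun x => (1 - x * ((p : ℕ) : ℂ) ^ (-s))⁻¹).prod) (D.L s)
  meromorphic : ∀ z, MeromorphicAt D.L z
  functional : ∀ z, completed D =ᶠ[𝓝[≠] z] fun s => D.root * conj (completed D (1 - conj s))

/-- The known properties of the local parameters of a unitary cuspidal automorphic representation of
`GL_n` over `ℚ`: at most `n` nonzero parameters, exactly `n` at the unramified primes, that is at
all but finitely many; the multiset of the parameters at an unramified prime is stable under
`x ↦ 1 / conj x` (unitarity); `|x| ≤ p^(1/2 - ε)` for some `ε > 0` (Jacquet-Shalika, Serre,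
Luo-Rudnick-Sarnak). -/
structure CuspidalParameters (n : ℕ) (D : LData m) : Prop where
  card_le : ∀ p, (D.par p).card ≤ n
  ne_zero : ∀ p, ∀ x ∈ D.par p, x ≠ 0
  ramified : {p | (D.par p).card ≠ n}.Finite
  unitary : ∀ p, (D.par p).card = n → (D.par p).map (fun x => (conj x)⁻¹) = D.par p
  small : ∃ ε : ℝ, 0 < ε ∧ ∀ p : Nat.Primes, ∀ x ∈ D.par p, ‖x‖ ≤ ((p : ℕ) : ℝ) ^ (1 / 2 - ε)

/-- The traces of `D` and `E` agree up to the constant `θ`: the sum of the absolute values of the
differences over prime numbers `p ≤ x` is at most `θ √x / log x + C`. -/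
def TracesAgree (θ : ℝ) (D E : LData m) : Prop :=
  ∃ C : ℝ, ∀ x : ℝ, 2 ≤ x → ∀ s : Finset Nat.Primes, (∀ p ∈ s, ((p : ℕ) : ℝ) ≤ x) →
    ∑ p ∈ s, ‖(D.par p).sum - (E.par p).sum‖ ≤ θ * Real.sqrt x / Real.log x + C

private theorem std {n : ℕ} {D : LData m} (h : Analytic D) (hc : ∀ p, (D.par p).card ≤ n)
    (h0 : ∀ p, ∀ x ∈ D.par p, x ≠ 0) (hlt : ∀ p : Nat.Primes, ∀ x ∈ D.par p, ‖x‖ ^ 2 < ((p : ℕ) : ℝ)) :
    Pool.Agent.Q247.SM.Std Pool.Agent.Q247.SM.plQ n
      (⟨D.par, D.cond, D.shift, D.root, D.L⟩ : Pool.Agent.Q247.SM.LD Nat.Primes m) := by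
  refine ⟨⟨hc, h0, fun v x hx => ?_⟩, h.cond_pos, h.shift_re, h.root_ne, h.meromorphic,
    fun s hs => ?_, h.functional⟩
  · rw [Pool.Agent.Q247.SM.plQ_N]
    exact hlt v x hx
  · refine (h.euler s hs).congr_fun fun v => ?_
    simp only [Pool.Agent.Q247.SM.lf, Pool.Agent.Q247.SM.plQ_N]

/-- **The representation `ρ_π` exists as soon as most of the traces are traces of Frobenius
elements.**

Let `D` be the data of a unitary cuspidal automorphic representation `π` of `GL_n` over `ℚ`, `σ` an
`n`-dimensional complex representation of `Gal(ℚbar/ℚ)` with open kernel, `E` the data of its Artin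
`L`-function; the traces agree up to a constant `θ < 2`, and `n ≤ 3` or the parameters of `π` are
bounded.  Then all local factors, the `L`-functions, the conductors, the gamma factors and the root
numbers agree, the parameters of `π` have absolute value one, and for every prime `ℓ` and every
isomorphism `ι` there is a continuous semisimple `ρ` that corresponds to `π_p` at every prime `p` at
which `π_p` is unramified. -/
theorem result {n : ℕ} {D E : LData m} (hD : Analytic D) (hπ : CuspidalParameters n D)
    (σ : Gal(AlgebraicClosure ℚ/ℚ) →* GL (Fin n) ℂ)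
    (hσ : IsOpen (σ.ker : Set Gal(AlgebraicClosure ℚ/ℚ))) (hE : Analytic E)
    (hL : ∀ p : Nat.Primes, ArtinFactor σ p (E.par p)) {θ : ℝ} (hθ : θ < 2)
    (htr : TracesAgree θ D E) (hn : n ≤ 3 ∨ ∃ A : ℝ, ∀ p, ∀ x ∈ D.par p, ‖x‖ ≤ A) :
    (∀ p, D.par p = E.par p) ∧ (∀ z, D.L =ᶠ[𝓝[≠] z] E.L) ∧ D.cond = E.cond ∧
    (Finset.univ.val.map D.shift = Finset.univ.val.map E.shift) ∧ D.root = E.root ∧
    (∀ p, ∀ x ∈ D.par p, ‖x‖ = 1) ∧
    ∀ (ℓ : ℕ) [Fact ℓ.Prime] (ι : PadicAlgCl ℓ ≃+* ℂ),
      ∃ ρ : Gal(AlgebraicClosure ℚ/ℚ) →* GL (Fin n) (PadicAlgCl ℓ), Continuous ρ ∧ Semisimple ρ ∧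
        ∀ p : Nat.Primes, (D.par p).card = n →
          AttachedAt ρ (ι : PadicAlgCl ℓ →+* ℂ) p (D.par p) := by
  obtain ⟨C, hC⟩ := htr
  obtain ⟨ε, hε, hsm⟩ := hπ.small
  have hEn : ∀ p : Nat.Primes, ∀ x ∈ E.par p, ‖x‖ = 1 := fun p =>
    Pool.Agent.Q247.GalRep.artin_norm p.2 hσ (hL p)
  have hEc : ∀ p : Nat.Primes, (E.par p).card ≤ n := fun p =>
    Pool.Agent.Q247.GalRep.artin_card p.2 (hL p)
  have hlt : ∀ p : Nat.Primes, ∀ x ∈ D.par p, ‖x‖ ^ 2 < ((p : ℕ) : ℝ) := by
    intro p x hx
    have hp1 : (1 : ℝ) < ((p : ℕ) : ℝ) := by exact_mod_cast p.2.one_lt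
    have h1 := hsm p x hx
    calc ‖x‖ ^ 2 ≤ (((p : ℕ) : ℝ) ^ (1 / 2 - ε)) ^ 2 := by gcongr
      _ = ((p : ℕ) : ℝ) ^ (1 - 2 * ε) := by
          rw [← Real.rpow_natCast, ← Real.rpow_mul (by positivity)]
          congr 1
          push_cast
          ring
      _ < ((p : ℕ) : ℝ) ^ (1 : ℝ) := Real.rpow_lt_rpow_of_exponent_lt hp1 (by linarith)
      _ = _ := Real.rpow_one _
  have hg : ∃ A ε' : ℝ, Pool.Agent.Q247.SM.Gr Pool.Agent.Q247.SM.plQ A ε' D.par E.par := by
    rcases hn with hn | ⟨A, hA⟩
    · obtain ⟨A, hA⟩ := Pool.Agent.Q247.SM.gr_of_unitary hε hn hπ.ne_zero hπ.ramified hπ.unitary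
        hsm hEc hEn
      exact ⟨A, _, hA⟩
    · exact ⟨_, _, Pool.Agent.Q247.SM.gr_of_bounded hA fun p x hx => (hEn p x hx).le⟩
  obtain ⟨A, ε', hg⟩ := hg
  have hm : ∃ C' : ℝ, Pool.Agent.Q247.SM.Mass Pool.Agent.Q247.SM.plQ D.par E.par
      (max θ 0 / 2) C' := by
    apply Pool.Agent.Q247.SM.mass_of_partial (C := |C|) (le_max_right _ _) (abs_nonneg C)
    intro x hx s hs
    refine (hC x hx s fun v hv => ?_).trans ?_
    · have h2 := (hs v hv).2
      rwa [Pool.Agent.Q247.SM.plQ_N] at h2
    · have hl : 0 < Real.log x := Real.log_pos (by linarith)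
      gcongr
      · exact le_max_left _ _
      · exact le_abs_self C
  obtain ⟨C', hm⟩ := hm
  have hη : max θ 0 / 2 < 1 := by
    have : max θ 0 < 2 := max_lt hθ (by norm_num)
    linarith
  have sD := std hD hπ.card_le hπ.ne_zero hlt
  have sE : Pool.Agent.Q247.SM.Std Pool.Agent.Q247.SM.plQ n
      (⟨E.par, E.cond, E.shift, E.root, E.L⟩ : Pool.Agent.Q247.SM.LD Nat.Primes m) := by
    refine std hE hEc (fun p x hx h0 => ?_) fun p x hx => ?_
    · have := hEn p x hx
      rw [h0, norm_zero] at this
      exact zero_ne_one this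
    · rw [hEn p x hx]
      have : (1 : ℝ) < ((p : ℕ) : ℝ) := by exact_mod_cast p.2.one_lt
      simpa using this
  obtain ⟨h1, h2, h3, h4, h5⟩ := Pool.Agent.Q247.SM.pair sD sE hg hm hη
  have hpar : ∀ p, D.par p = E.par p := fun p =>
    Pool.Agent.Q247.SM.eq_of_others sD.bd sE.bd h1 p fun v hv hne => absurd hv hne
  refine ⟨hpar, h5, h2, h3, h4, fun p => by rw [hpar]; exact hEn p, fun ℓ _ ι => ?_⟩
  obtain ⟨ρ, hρ1, hρ2, hρ3⟩ := Pool.Agent.Q247.GalRep.exists_rho hσ ℓ ι
  refine ⟨ρ, hρ1, hρ2, fun p hp => ?_⟩
  rw [hpar p] at hp ⊢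
  exact hρ3 p p.2 (E.par p) (hL p) hp

end Pool.Agent.Results.MP_ef641d_nt.TracesSuffice
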